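import Pool.Agent.ConeD.Every
import Pool.Agent.ConeD.Transfer

/-!
Problem MP_b9fb85_pr, every dimension: with positive probability the Eden cluster with the
Euclidean weights misses an open cone.
-/

set_option autoImplicit false

open MeasureTheory Classical

/-- For every `d ≥ 2` there is `α₀ ≥ 1` such that for all `α > α₀` the Eden cluster of `ℤ ^ d` with
edge weights `|midpoint| ^ α` has, with probability at least some `p > 0`, all its vertices in a
Euclidean cone of opening angle less than `2 π`; the cone and `p` depend on `d` and `α` only. -/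
theorem Pool.Agent.Results.MP_b9fb85_pr.ConeAvoidance.result :
    ∀ d : ℕ, 2 ≤ d → ∃ α₀ : ℝ, 1 ≤ α₀ ∧ ∀ α : ℝ, α₀ < α →
    ∃ (a u : Fin d → ℝ) (θ : ℝ) (p₀ : ENNReal), 0 < θ ∧ θ < 2 * Real.pi ∧
      ∑ j : Fin d, u j ^ 2 = 1 ∧ 0 < p₀ ∧
    ∀ (Ω : Type) [MeasurableSpace Ω] (P : Measure Ω), IsProbabilityMeasure P →
    ∀ e : ℕ → Ω → (Fin d → ℤ) × Fin d,
      (∀ (n : ℕ) (f : (Fin d → ℤ) × Fin d), MeasurableSet {ω | e n ω = f}) →
      (∀ (n : ℕ) (s : ℕ → (Fin d → ℤ) × Fin d) (f : (Fin d → ℤ) × Fin d),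
        P {ω | (∀ i < n, e i ω = s i) ∧ e n ω = f}
          = P {ω | ∀ i < n, e i ω = s i} *
            ENNReal.ofReal
              (if ((∀ i < n, f ≠ s i) ∧
                    (n = 0 → ((0 : Fin d → ℤ) = f.1 ∨ (0 : Fin d → ℤ) = f.1 + Pi.single f.2 1)) ∧
                    (0 < n → ∃ i < n, ∃ p : Fin d → ℤ,
                      (p = f.1 ∨ p = f.1 + Pi.single f.2 1) ∧
                      (p = (s i).1 ∨ p = (s i).1 + Pi.single (s i).2 1)))
               then
                (Real.sqrt (∑ j : Fin d,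
                    ((f.1 j : ℝ) + (if j = f.2 then (1 / 2 : ℝ) else 0)) ^ 2)) ^ α /
                (∑' g : (Fin d → ℤ) × Fin d,
                  if ((∀ i < n, g ≠ s i) ∧
                      (n = 0 → ((0 : Fin d → ℤ) = g.1 ∨ (0 : Fin d → ℤ) = g.1 + Pi.single g.2 1)) ∧
                      (0 < n → ∃ i < n, ∃ p : Fin d → ℤ,
                        (p = g.1 ∨ p = g.1 + Pi.single g.2 1) ∧
                        (p = (s i).1 ∨ p = (s i).1 + Pi.single (s i).2 1)))
                  then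
                    (Real.sqrt (∑ j : Fin d,
                      ((g.1 j : ℝ) + (if j = g.2 then (1 / 2 : ℝ) else 0)) ^ 2)) ^ α
                  else 0)
               else 0)) →
      p₀ ≤ P {ω | ∀ (n : ℕ) (p : Fin d → ℤ),
          (p = (e n ω).1 ∨ p = (e n ω).1 + Pi.single (e n ω).2 1) →
          Real.sqrt (∑ j : Fin d, ((p j : ℝ) - a j) ^ 2) * Real.cos (θ / 2)
            ≤ ∑ j : Fin d, ((p j : ℝ) - a j) * u j} := by
  intro d hd
  have hd0 : 0 < d := by omega
  obtain ⟨α0, h1, hα0⟩ := ConeD.every_conf hd0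
  refine ⟨α0, h1, fun α hα => ?_⟩
  obtain ⟨κ, M, u, hk, hM, hu, hP⟩ := hα0 α hα
  refine ⟨fun j => -(M / (1 - |κ|) * u j), u, 2 * Real.arccos κ, _, ?_, ?_, hu,
    pos_iff_ne_zero.2 hP, ?_⟩
  · have := Real.arccos_pos.2 (abs_lt.1 hk).2
    linarith
  · have h2 : Real.arccos κ < Real.pi := by
      refine lt_of_le_of_ne (Real.arccos_le_pi κ) fun h => ?_
      have h3 := Real.arccos_eq_pi.1 h
      linarith [(abs_lt.1 hk).1]
    linarith
  · intro Ω _ P hPr e hem hstep
    have h := ConeD.transfer ⟨0, hd0⟩ α hk hM hu ((ConeD.PE d) {E | (∀ e, 0 < E e) ∧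
      ConeD.Explodes (ConeD.tau α E) ∧ ∀ x ∈ ConeD.Ainf (ConeD.tau α E),
        κ * ConeD.nrm x - M ≤ ∑ j : Fin d, (x j : ℝ) * u j}) le_rfl Ω P hPr e hem hstep
    simp only [neg_mul] at h
    exact h
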