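import Pool.Agent.ConeD.High
import Pool.Agent.ConeD.Transfer

/-!
Problem MP_b9fb85_pr, high dimension: with positive probability the Eden cluster with the Euclidean
weights is confined to a deterministic cone of opening angle less than `π / 2`.
-/

set_option autoImplicit false

open MeasureTheory Classical

/-- There is `d₀` such that for all `d ≥ d₀` there is `α₀ ≥ 1` such that for all `α > α₀` the Eden
cluster of `ℤ ^ d` with edge weights `|midpoint| ^ α` has, with probability at least some `p > 0`,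
all its vertices in a Euclidean cone of opening angle less than `π / 2`; the cone and `p` depend
on `d` and `α` only. -/
theorem Pool.Agent.Results.MP_b9fb85_pr.HighDim.result :
    ∃ d₀ : ℕ, ∀ d : ℕ, d₀ ≤ d → ∃ α₀ : ℝ, 1 ≤ α₀ ∧ ∀ α : ℝ, α₀ < α →
    ∃ (a u : Fin d → ℝ) (θ : ℝ) (p₀ : ENNReal), 0 < θ ∧ θ < Real.pi / 2 ∧
      ∑ j : Fin d, u j ^ 2 = 1 ∧ 0 < p₀ ∧
    ∀ (Ω : Type) [MeasurableSpace Ω] (P : Measure Ω), IsProbabilityMeasure P →
    ∀ e : ℕ → Ω → (Fin d → ℤ) × Fin d,
      (∀ (n : ℕ) (f : (Fin d → ℤ) × Fin d), MeasurableSet {ω | e n ω = f}) →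
      (∀ (n : ℕ) (s : ℕ → (Fin d → ℤ) × Fin d) (f : (Fin d → ℤ) × Fin d),
        P {ω | (∀ i < n, e i ω = s i) ∧ e n ω = f}
          = P {ω | ∀ i < n, e i ω = s i} *
            ENNReal.ofReal
              (if ((∀ i < n, f ≠ s i) ∧
                    (n = 0 → ((0 : Fin d → ℤ) = f.1 ∨ (0 : Fin d → ℤ) = f.1 + Pi.single f.2 1)) ∧
                    (0 < n → ∃ i < n, ∃ p : Fin d → ℤ,
                      (p = f.1 ∨ p = f.1 + Pi.single f.2 1) ∧
                      (p = (s i).1 ∨ p = (s i).1 + Pi.single (s i).2 1)))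
               then
                (Real.sqrt (∑ j : Fin d,
                    ((f.1 j : ℝ) + (if j = f.2 then (1 / 2 : ℝ) else 0)) ^ 2)) ^ α /
                (∑' g : (Fin d → ℤ) × Fin d,
                  if ((∀ i < n, g ≠ s i) ∧
                      (n = 0 → ((0 : Fin d → ℤ) = g.1 ∨ (0 : Fin d → ℤ) = g.1 + Pi.single g.2 1)) ∧
                      (0 < n → ∃ i < n, ∃ p : Fin d → ℤ,
                        (p = g.1 ∨ p = g.1 + Pi.single g.2 1) ∧
                        (p = (s i).1 ∨ p = (s i).1 + Pi.single (s i).2 1)))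
                  then
                    (Real.sqrt (∑ j : Fin d,
                      ((g.1 j : ℝ) + (if j = g.2 then (1 / 2 : ℝ) else 0)) ^ 2)) ^ α
                  else 0)
               else 0)) →
      p₀ ≤ P {ω | ∀ (n : ℕ) (p : Fin d → ℤ),
          (p = (e n ω).1 ∨ p = (e n ω).1 + Pi.single (e n ω).2 1) →
          Real.sqrt (∑ j : Fin d, ((p j : ℝ) - a j) ^ 2) * Real.cos (θ / 2)
            ≤ ∑ j : Fin d, ((p j : ℝ) - a j) * u j} := by
  obtain ⟨d0, -, hd0⟩ := ConeD.high_conf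
  refine ⟨d0, fun d hd => ?_⟩
  obtain ⟨α0, h1, hα0⟩ := hd0 d hd
  refine ⟨α0, h1, fun α hα => ?_⟩
  obtain ⟨i0, M, hM, hP⟩ := hα0 α hα
  have hk : |(18 / 25 : ℝ)| < 1 := by rw [abs_of_pos (by norm_num)]; norm_num
  have hu : ∑ j : Fin d, (Pi.single i0 (1 : ℝ) : Fin d → ℝ) j ^ 2 = 1 := by
    rw [Finset.sum_eq_single i0]
    · simp
    · intro j _ hj
      simp [Pi.single_eq_of_ne hj]
    · simp
  have hdot : ∀ x : Fin d → ℤ, ∑ j : Fin d, (x j : ℝ) * (Pi.single i0 (1 : ℝ) : Fin d → ℝ) j =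
      (x i0 : ℝ) := by
    intro x
    rw [Finset.sum_eq_single i0]
    · simp
    · intro j _ hj
      simp [Pi.single_eq_of_ne hj]
    · simp
  refine ⟨fun j => -(M / (1 - |(18 / 25 : ℝ)|) * (Pi.single i0 (1 : ℝ) : Fin d → ℝ) j),
    Pi.single i0 1, 2 * Real.arccos (18 / 25), _, ?_, ?_, hu, pos_iff_ne_zero.2 hP, ?_⟩
  · have := Real.arccos_pos.2 (show (18 / 25 : ℝ) < 1 by norm_num)
    linarith
  · have h2 : Real.sqrt 2 / 2 < 18 / 25 := by
      have h3 : Real.sqrt 2 < 36 / 25 := by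
        rw [Real.sqrt_lt' (by norm_num)]
        norm_num
      linarith
    have h4 : Real.arccos (18 / 25) < Real.arccos (Real.sqrt 2 / 2) :=
      Real.arccos_lt_arccos (by linarith [Real.sqrt_nonneg 2]) h2 (by norm_num)
    rw [← Real.cos_pi_div_four, Real.arccos_cos (by positivity) (by linarith [Real.pi_pos])] at h4
    linarith
  · intro Ω _ P hPr e hem hstep
    have h := ConeD.transfer i0 α hk hM hu ((ConeD.PE d) {E | (∀ e, 0 < E e) ∧
      ConeD.Explodes (ConeD.tau α E) ∧ ∀ x ∈ ConeD.Ainf (ConeD.tau α E),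
        18 / 25 * ConeD.nrm x - M ≤ (x i0 : ℝ)}) (by simp only [hdot]; exact le_rfl) Ω P hPr e
      hem hstep
    simp only [neg_mul] at h
    exact h
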