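import Pool.Agent.ConeE.Fpp
import Pool.Agent.ConeE.Transfer

/-!
Problem MP_b9fb85_pr, the planar case of Q1: the inner statement of the frozen statement of the
problem, for `d = 2`.
-/

set_option autoImplicit false

open MeasureTheory Classical

/-- There is `α₀ ≥ 1` such that for all `α > α₀` the Eden cluster of the square lattice with
edge weights `|midpoint| ^ α` almost surely has all its vertices in one Euclidean cone of opening
angle less than `π`. -/
theorem Pool.Agent.Results.MP_b9fb85_pr.Planar.result :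
    ∃ α₀ : ℝ, 1 ≤ α₀ ∧ ∀ α : ℝ, α₀ < α →
    ∀ (Ω : Type) [MeasurableSpace Ω] (P : Measure Ω), IsProbabilityMeasure P →
    ∀ e : ℕ → Ω → (Fin 2 → ℤ) × Fin 2,
      (∀ (n : ℕ) (f : (Fin 2 → ℤ) × Fin 2), MeasurableSet {ω | e n ω = f}) →
      (∀ (n : ℕ) (s : ℕ → (Fin 2 → ℤ) × Fin 2) (f : (Fin 2 → ℤ) × Fin 2),
        P {ω | (∀ i < n, e i ω = s i) ∧ e n ω = f}
          = P {ω | ∀ i < n, e i ω = s i} *
            ENNReal.ofReal
              (if ((∀ i < n, f ≠ s i) ∧
                    (n = 0 → ((0 : Fin 2 → ℤ) = f.1 ∨ (0 : Fin 2 → ℤ) = f.1 + Pi.single f.2 1)) ∧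
                    (0 < n → ∃ i < n, ∃ p : Fin 2 → ℤ,
                      (p = f.1 ∨ p = f.1 + Pi.single f.2 1) ∧
                      (p = (s i).1 ∨ p = (s i).1 + Pi.single (s i).2 1)))
               then
                (Real.sqrt (∑ j : Fin 2,
                    ((f.1 j : ℝ) + (if j = f.2 then (1 / 2 : ℝ) else 0)) ^ 2)) ^ α /
                (∑' g : (Fin 2 → ℤ) × Fin 2,
                  if ((∀ i < n, g ≠ s i) ∧
                      (n = 0 → ((0 : Fin 2 → ℤ) = g.1 ∨ (0 : Fin 2 → ℤ) = g.1 + Pi.single g.2 1)) ∧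
                      (0 < n → ∃ i < n, ∃ p : Fin 2 → ℤ,
                        (p = g.1 ∨ p = g.1 + Pi.single g.2 1) ∧
                        (p = (s i).1 ∨ p = (s i).1 + Pi.single (s i).2 1)))
                  then
                    (Real.sqrt (∑ j : Fin 2,
                      ((g.1 j : ℝ) + (if j = g.2 then (1 / 2 : ℝ) else 0)) ^ 2)) ^ α
                  else 0)
               else 0)) →
      ∀ᵐ ω ∂P, ∃ a u : Fin 2 → ℝ, ∃ θ : ℝ, 0 < θ ∧ θ < Real.pi ∧
        ∑ j : Fin 2, u j ^ 2 = 1 ∧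
        ∀ (n : ℕ) (p : Fin 2 → ℤ),
          (p = (e n ω).1 ∨ p = (e n ω).1 + Pi.single (e n ω).2 1) →
          Real.sqrt (∑ j : Fin 2, ((p j : ℝ) - a j) ^ 2) * Real.cos (θ / 2)
            ≤ ∑ j : Fin 2, ((p j : ℝ) - a j) * u j := by
  obtain ⟨α₀, h1, h⟩ := ConeE.fpp_conf
  exact ⟨α₀, h1, fun α hα => ConeE.transfer α (h α hα)⟩
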