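import Pool.Agent.OneR.Fin
import Pool.Agent.OneR.Short
import Pool.Agent.OneR.FDet
import Pool.Agent.OneR.Rch
import Pool.Agent.OneR.Say

/-!
Problem MP_b9fb85_pr, every dimension and every exponent larger than one: the weighted Eden cluster
has one end, all its infection paths are uniformly straight, the side branches of its ray are at most
polynomially long, the limit directions of the ray are critical directions of the limit shape of
first passage percolation and nowhere dense, the cluster contains arcs of explicit length around the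
ray (everything far away, if the exponent is close to one; it lies in no cone of opening less than
an explicit number), and in the plane the ray has an asymptotic
direction and the cluster contains an explicit cone around it.
-/

set_option autoImplicit false

open MeasureTheory OneR ConeD

namespace OneR

private theorem res_infn {d : ℕ} (s : ℕ → (Fin d → ℤ) × Fin d) (x y : Fin d → ℤ) :
    OneE.Infects s x y ↔ Infn s x y := by
  unfold OneE.Infects Infn
  simp only [ConeD.TRANSAux.mem_ends, ConeD.TRANSAux.mem_vs_lst, ConeD.ev]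

private theorem res_reached {d : ℕ} {s : ℕ → (Fin d → ℤ) × Fin d} {v : Fin d → ℤ}
    (h : Site s v) : v ∈ OneE.Reached s := by
  obtain ⟨n, hn⟩ := h
  exact ⟨n + 1, OneE.ends_subset _ n ((ConeD.TRANSAux.mem_ends _ _).2 hn)⟩

private theorem res_site {d : ℕ} {s : ℕ → (Fin d → ℤ) × Fin d} {v : Fin d → ℤ}
    (h : v ∈ OneE.Reached s) (h0 : v ≠ 0) : Site s v := by
  obtain ⟨n, hn⟩ := h
  rw [ConeD.TRANSAux.mem_vs_lst] at hn
  rcases hn with h1 | ⟨i, _, h1⟩
  · exact absurd h1 h0
  · exact ⟨i, h1⟩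

private theorem res_desc {d : ℕ} {s : ℕ → (Fin d → ℤ) × Fin d} {z : Fin d → ℤ}
    (h : RaySite s z) : (OneE.Desc s z).Infinite :=
  Set.Infinite.mono (fun _ hu => rtg_mono (fun x y hxy => (res_infn s x y).2 hxy) hu) h

end OneR

/-- For all `d ≥ 2` and `α > 1` there is a (deterministic) constant `C0` such that for every
`κ > (d + α) / (α - 1)` almost surely the following holds for the Eden cluster of `ℤ ^ d` with edge
weights `|midpoint| ^ α`. Say that the site `y` is infected from the site `x` if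
some chosen edge has the ends `x`, `y`, and before it was chosen `x` was the origin or an end of a
chosen edge, but `y` was not. (1) For every finite set `F` of sites there is a site `z` outside `F`
such that all but finitely many sites of the cluster are reached from `z` by a chain of infections
which avoids `F`. (2) There is `k0` such that for every site `v` of the cluster, all
finite sets `I` of natural numbers `k ≥ k0` and all choices of sites `x k`, `y k` (`k ∈ I`) on the
infection path of `v` (sites from which `v` is reached by a chain of infections), with norms between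
`2 ^ k` and `2 ^ (k + 1)`, the sum over `k ∈ I` of `1 - cos (angle between x k and y k)` is at most
`C0`. (3) There is a constant
`C` such that every site `v` of the cluster is reached by a chain of infections from a site `z` from
which infinitely many sites are so reached (a ray site), with `|v| ≤ C (1 + |z|) ^ κ`. (4) Let `μ` be
the time constant of first passage percolation on `ℤ ^ d` with independent exponential passage times
of mean one. There is `m > 0` such that for all `w ∈ ℤ ^ d` and `ε > 0` all but finitely many ray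
sites `z` have `|μ(z) - m |z|| ≤ ε |z|` and `m ⟨w, z⟩ ≤ (μ(w) + ε) |z|`. (5) For all nonzero
`z0 ∈ ℤ ^ d` and `ε > 0` there are a nonzero `w ∈ ℤ ^ d` with `⟨w, z0⟩ > (1 - ε) |w| |z0|` and `δ > 0`
such that all but finitely many ray sites `z` have `⟨w, z⟩ ≤ (1 - δ) |w| |z|`. (6) For every `k > 0` with `k √d < 1`, if `z` is a
ray site of large norm then all sites `v` within the distance `k` of `z` in the flat metric
`|dx| / |x| ^ α` (normed so that infinity has distance one from `z`) belong to the cluster. (7) If `π (α - 1) < arcsin (1 / √d)` then all sites of large norm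
belong to the cluster. (8) The cluster lies in no Euclidean cone of opening `θ < π` with
`θ < 2 arcsin (1 / √d) / (α - 1)`. (9) If `d = 2` there is a unit vector `u` such that `z / |z|` tends to `u` along
the ray sites `z`, and for every `ε > 0` all sites `v` of large norm whose angle with `u` is at most
`(1 - ε) π / (4 (α - 1))` belong to the cluster: it contains an explicit cone around its asymptotic
direction. -/
theorem Pool.Agent.Results.MP_b9fb85_pr.RayStructure.result :
    ∀ d : ℕ, 2 ≤ d → ∀ α : ℝ, 1 < α → ∃ C0 : ℝ,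
    ∀ κ : ℝ, (d : ℝ) + α < κ * (α - 1) →
    ∀ (Ω : Type) [MeasurableSpace Ω] (P : Measure Ω), IsProbabilityMeasure P →
    ∀ e : ℕ → Ω → (Fin d → ℤ) × Fin d, EdenLaw α P e →
    ∀ᵐ ω ∂P, ∀ s : ℕ → (Fin d → ℤ) × Fin d, (∀ n, s n = e n ω) →
      (∀ F : Finset (Fin d → ℤ), ∃ z : Fin d → ℤ, z ∉ F ∧
        {v | Site s v ∧ ¬ Relation.ReflTransGen (fun x y => y ∉ F ∧ Infn s x y) z v}.Finite) ∧
      (∃ k0 : ℕ, ∀ v : Fin d → ℤ, Site s v → ∀ (I : Finset ℕ) (x y : ℕ → Fin d → ℤ),
        (∀ k ∈ I, k0 ≤ k ∧ ∀ z : Fin d → ℤ, (z = x k ∨ z = y k) →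
          Anc s z v ∧ 2 ^ k ≤ nrm z ∧ nrm z ≤ 2 ^ (k + 1)) →
        ∑ k ∈ I, (1 - ip (x k) (y k) / (nrm (x k) * nrm (y k))) ≤ C0) ∧
      (∃ C : ℝ, ∀ v : Fin d → ℤ, Site s v →
        ∃ z : Fin d → ℤ, Anc s z v ∧ RaySite s z ∧ nrm v ≤ C * (1 + nrm z) ^ κ) ∧
      (∃ m : ℝ, 0 < m ∧ ∀ (w : Fin d → ℤ) (ε : ℝ), 0 < ε → ∃ R : ℝ, ∀ z : Fin d → ℤ,
        RaySite s z → R ≤ nrm z →
        |mu z - m * nrm z| ≤ ε * nrm z ∧ m * ip w z ≤ (mu w + ε) * nrm z) ∧
      (∀ z0 : Fin d → ℤ, z0 ≠ 0 → ∀ ε : ℝ, 0 < ε → ∃ (w : Fin d → ℤ) (δ R : ℝ), w ≠ 0 ∧ 0 < δ ∧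
        (1 - ε) * (nrm w * nrm z0) < ip w z0 ∧
        ∀ z : Fin d → ℤ, RaySite s z → R ≤ nrm z → ip w z ≤ (1 - δ) * (nrm w * nrm z)) ∧
      (∀ k : ℝ, 0 < k → k * Real.sqrt d < 1 → ∃ R : ℝ, ∀ z v : Fin d → ℤ, RaySite s z →
        R ≤ nrm z → Near α k z v → Site s v) ∧
      (Real.pi * (α - 1) < Real.arcsin (1 / Real.sqrt d) →
        ∃ R : ℝ, ∀ v : Fin d → ℤ, R ≤ nrm v → Site s v) ∧
      (∀ (a u : Fin d → ℝ) (θ : ℝ), ∑ j : Fin d, u j ^ 2 = 1 → 0 < θ → θ < Real.pi →
        θ * (α - 1) < 2 * Real.arcsin (1 / Real.sqrt d) → ∃ v : Fin d → ℤ, Site s v ∧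
        ∑ j : Fin d, ((v j : ℝ) - a j) * u j <
          Real.sqrt (∑ j : Fin d, ((v j : ℝ) - a j) ^ 2) * Real.cos (θ / 2)) ∧
      (d = 2 → ∃ u : Fin d → ℝ, ∑ j : Fin d, u j ^ 2 = 1 ∧
        (∀ ε : ℝ, 0 < ε → ∃ R : ℝ, ∀ z : Fin d → ℤ, RaySite s z → R ≤ nrm z →
          ∀ j : Fin d, |(z j : ℝ) - nrm z * u j| ≤ ε * nrm z) ∧
        ∀ ε : ℝ, 0 < ε → ∃ R : ℝ, ∀ v : Fin d → ℤ, R ≤ nrm v →
          Real.arccos ((∑ j : Fin d, (v j : ℝ) * u j) / nrm v) * (α - 1) ≤
            (1 - ε) * (Real.pi / 4) → Site s v) := by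
  intro d hd α hα
  have i0 : Fin d := ⟨0, by omega⟩
  obtain ⟨C0, hC0⟩ := straightFar_ae i0 hα
  have hfat := fun j => reach_ae hd hα j
  refine ⟨C0, ?_⟩
  intro κ hκ Ω _ P hPr e he
  have hae : ∀ᵐ E ∂(ConeD.PE d), ∀ s : ℕ → ConeD.Edge d,
      (∀ n, ConeD.G (ConeD.tau α E) (ConeD.TRANSAux.lst s n)) →
      s ∈ ((({s : ℕ → ConeD.Edge d | OneE.OneEnd s} ∩ {s : ℕ → ConeD.Edge d | StraightFar C0 s}) ∩
        {s : ℕ → ConeD.Edge d | Short κ s}) ∩ {s : ℕ → ConeD.Edge d | Critical s}) ∩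
        (({s : ℕ → ConeD.Edge d | NowDense s} ∩ {s : ℕ → ConeD.Edge d | Conv2 s}) ∩
        ((⋂ j : ℕ, {s : ℕ → ConeD.Edge d | Reach α j s}) ∩
          {s : ℕ → ConeD.Edge d | AllRad s})) := by
    filter_upwards [ConeD.ae_pos, OneE.explodes_ae i0 hα, OneE.via_or_avoid (d := d) α,
      hC0, short_ae i0 hα hκ, critical_ae i0 hα, nowDense_ae hd hα, conv2_ae hα,
      ae_all_iff.2 hfat,
      allRad_ae i0 hα] with E hpos hex hva hst hsh hcr hnd hcv hft hrd s hG
    exact ⟨⟨⟨⟨OneE.one_end i0 (fun f => div_pos (hpos f) (Real.rpow_pos_of_pos (ConeD.mid_pos f) α))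
      hex hG (hva hex), hst s hG⟩, hsh s hG⟩, hcr s hG⟩, ⟨hnd s hG, hcv s hG⟩,
      Set.mem_iInter.2 fun j => hft j s hG, hrd s hG⟩
  filter_upwards [OneE.transfer_ae i0 α Ω P hPr e he.1 he.2 _
    ((((OneE.measurableSet_oneEnd.inter (measurableSet_straightFar C0)).inter
      (measurableSet_short κ)).inter measurableSet_critical).inter
      ((measurableSet_nowDense.inter measurableSet_conv2).inter
      ((MeasurableSet.iInter fun j => measurableSet_reach α j).inter
        measurableSet_allRad))) hae] with ω hω s hs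
  obtain rfl : s = fun n => e n ω := funext hs
  obtain ⟨⟨⟨⟨hω1, hω2⟩, hω3⟩, hω4⟩, ⟨hω6, hω7⟩, hω8, hω9⟩ := hω
  have hω1' : OneE.OneEnd fun n => e n ω := hω1
  have hω2' : StraightFar C0 fun n => e n ω := hω2
  have hω3' : Short κ fun n => e n ω := hω3
  have hω4' : Critical fun n => e n ω := hω4
  have hω8' : ∀ j, Reach α j fun n => e n ω := fun j => Set.mem_iInter.1 hω8 j
  refine ⟨?_, ?_, ?_, ?_, ?_, ?_, ?_, ?_, ?_⟩
  · intro F
    obtain ⟨z, hz, hfin⟩ := hω1' F
    refine ⟨z, hz, hfin.subset ?_⟩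
    rintro v ⟨hv, hv'⟩
    refine ⟨res_reached hv, fun h => hv' ?_⟩
    have h' : Relation.ReflTransGen (fun x y => OneE.Infects (fun n => e n ω) x y ∧ y ∉ F) z v := h
    exact rtg_mono (fun x y hxy => ⟨hxy.2, (res_infn _ x y).1 hxy.1⟩) h'
  · obtain ⟨k0, hC⟩ := hω2'
    refine ⟨k0, fun v hv I x y hxy => ?_⟩
    have h1 := hC v (res_reached hv) I (fun k => x k) (fun k => y k) (fun k => by
      obtain ⟨a1, a2, a3⟩ := (hxy k k.2).2 (x k) (Or.inl rfl)
      obtain ⟨b1, b2, b3⟩ := (hxy k k.2).2 (y k) (Or.inr rfl)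
      exact ⟨(hxy k k.2).1, ⟨rtg_mono (fun x y h => (res_infn _ x y).2 h) a1, a2, a3⟩,
        rtg_mono (fun x y h => (res_infn _ x y).2 h) b1, b2, b3⟩)
    rw [← Finset.sum_coe_sort I]
    exact h1
  · obtain ⟨C, hC⟩ := hω3'
    refine ⟨C, fun v hv => ?_⟩
    obtain ⟨z, hz1, hz2, hz3⟩ := hC v (res_reached hv)
    exact ⟨z, rtg_mono (fun x y h => (res_infn _ x y).1 h) hz1,
      Set.Infinite.mono (fun _ hu => rtg_mono (fun x y h => (res_infn _ x y).1 h) hu) hz2, hz3⟩
  · obtain ⟨m, hm0, hm⟩ := crit_value hω4'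
    refine ⟨m, hm0, fun w ε hε => ?_⟩
    obtain ⟨R, hR⟩ := hm w ε hε
    exact ⟨R, fun z hz hRz => hR z (res_desc hz) hRz⟩
  · intro z0 hz0 ε hε
    obtain ⟨w, δ, R, h1, h2, h3, h4⟩ := nowDense_ip hω6 hz0 hε
    exact ⟨w, δ, R, h1, h2, h3, fun z hz hRz => h4 z (res_desc hz) hRz⟩
  · intro k hk hk1
    have hd0 : 0 < Real.sqrt d := Real.sqrt_pos.2 (by positivity)
    have hx : 0 < 1 - k * Real.sqrt d := by linarith
    obtain ⟨R, hR⟩ := hω8' ⌈1 / (1 - k * Real.sqrt d)⌉₊
    refine ⟨R, fun z v hz hRz hvz => ?_⟩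
    have h4 : 1 / ((⌈1 / (1 - k * Real.sqrt d)⌉₊ : ℝ) + 2) ≤ 1 - k * Real.sqrt d := by
      have h5 : 1 / (1 - k * Real.sqrt d) ≤ (⌈1 / (1 - k * Real.sqrt d)⌉₊ : ℝ) := Nat.le_ceil _
      rw [div_le_iff₀ (by positivity)]
      rw [div_le_iff₀ hx] at h5
      nlinarith
    have h6 : k ≤ (1 - 1 / ((⌈1 / (1 - k * Real.sqrt d)⌉₊ : ℝ) + 2)) / Real.sqrt d := by
      rw [le_div_iff₀ hd0]
      linarith
    refine res_site (hR z v (res_desc hz) hRz ⟨hvz.1, hvz.2.1, hvz.2.2.trans ?_⟩) fun h0 => ?_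
    · exact pow_le_pow_left₀ hk.le h6 2
    · have h1 := hvz.1
      rw [h0, ConeD.nrm_zero] at h1
      exact lt_irrefl _ h1
  · intro hπ
    obtain ⟨R, hR⟩ := reach_all hd hα hω8' hω9 hπ
    refine ⟨max 1 R, fun v hRv => res_site (hR v ((le_max_right _ _).trans hRv)) fun h0 => ?_⟩
    have h1 : 1 ≤ nrm v := (le_max_left _ _).trans hRv
    rw [h0, ConeD.nrm_zero] at h1
    linarith
  · intro a u θ hu h0 h1 h2
    obtain ⟨v, hv1, hv2, hv3⟩ := reach_no_cone hd hα hω8' hω9 a u hu h0 h1 h2 1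
    refine ⟨v, res_site hv2 fun h3 => ?_, hv3⟩
    rw [h3, ConeD.nrm_zero] at hv1
    linarith
  · intro hd2
    obtain ⟨u, hu, h⟩ := conv_dir i0 (hω7 hd2)
    have hsq : ∑ j : Fin d, u j ^ 2 = 1 := by
      have h1 : ‖u‖ ^ 2 = ∑ j, u j ^ 2 := by
        rw [EuclideanSpace.norm_sq_eq]
        refine Finset.sum_congr rfl fun j _ => ?_
        rw [Real.norm_eq_abs, sq_abs]
      rw [hu, one_pow] at h1
      exact h1.symm
    refine ⟨fun j => u j, hsq, fun ε hε => ?_, ?_⟩
    · obtain ⟨R, hR⟩ := h ε hε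
      refine ⟨R, fun z hz hRz j => ?_⟩
      have h1 := hR z (res_desc hz) hRz
      have h2 : ‖(ConeD.toE z - nrm z • u) j‖ ≤ ‖ConeD.toE z - nrm z • u‖ :=
        PiLp.norm_apply_le _ j
      have h3 : (ConeD.toE z - nrm z • u) j = (z j : ℝ) - nrm z * u j := rfl
      rw [h3, Real.norm_eq_abs] at h2
      exact h2.trans h1
    · intro ε hε
      obtain ⟨R, hR⟩ := reach_cone hd hα hω8' hω9 hu h hε
      refine ⟨max 1 R, fun v hRv hv => ?_⟩
      have h2 : inner ℝ (ConeD.toE v) u = ∑ j : Fin d, (v j : ℝ) * u j := by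
        rw [PiLp.inner_apply]
        refine Finset.sum_congr rfl fun j _ => ?_
        rw [ConeD.toE_apply]
        simp [mul_comm]
      have h3 : (d : ℝ) = 2 := by exact_mod_cast hd2
      have h4 : Real.arcsin (1 / Real.sqrt 2) = Real.pi / 4 := by
        have h5 : 1 / Real.sqrt 2 = Real.sin (Real.pi / 4) := by
          rw [Real.sin_pi_div_four, div_eq_div_iff (by positivity) (by norm_num)]
          rw [Real.mul_self_sqrt (by norm_num)]
          norm_num
        rw [h5, Real.arcsin_sin (by linarith [Real.pi_pos]) (by linarith [Real.pi_pos])]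
      refine res_site (hR v ((le_max_right _ _).trans hRv) (by rw [h2, h3, h4]; exact hv)) fun h0 => ?_
      have h1 : 1 ≤ nrm v := (le_max_left _ _).trans hRv
      rw [h0, ConeD.nrm_zero] at h1
      linarith
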